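import Pool.Agent.H30.FMT.Conv3

/-!
# A closed 4-manifold with a degree 2 map to the 4-torus and `χ < |σ| + 6`

There is a triangulated closed connected oriented 4-manifold `M = |K|` (45 vertices, 1418
4-simplices) and a map `f : M → T⁴` of degree 2 that induces an isomorphism of fundamental
groups, with `χ(M) = 8`, `b₊(M) = 5`, `b₋(M) = 9`, so `σ(M) = -4` and `χ(M) = 8 < 10 = |σ(M)| + 6`.
-/

namespace Pool.Agent.Results.MP_a3e91b_gt.DisproofQ1

open Pool.Agent.H30.FMT

theorem result : ∃ (n : ℕ) (K : Finset (Finset (Fin n))) (o : Finset (Fin n) → ℤ)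
    (x : Fin 4 → Finset (Fin n) → ℤ) (f : Geom K → Fin 4 → AddCircle (1 : ℝ)),
    -- `M = |K|` is a closed connected topological 4-manifold
    IsCpx K ∧ IsClosedMfd (Geom K) (Fin 4 → ℝ) ∧
    -- with the orientation given by the fundamental cycle `o`
    IsFundCycle K o ∧
    -- the map `f : M → T⁴` given by the cocycles `x i` is an isomorphism on `π₁`, of degree 2
    IsMapOf K x f ∧ PiOneIso f ∧ degree K o x = 2 ∧
    -- `b₊ = 5`, `b₋ = 9`, so `σ = -4`, and `χ = 8 < |σ| + 6`
    IsIndex K (qform K o) 5 ∧ IsIndex K (fun z => -qform K o z) 9 ∧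
    eulerChar K = 8 ∧ (8 : ℤ) < |(5 : ℤ) - 9| + 6 :=
  main

end Pool.Agent.Results.MP_a3e91b_gt.DisproofQ1
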